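import Mathlib

set_option autoImplicit false

namespace Pool.Agent.Lib.MP_1ef125_al

/-- The ground field. -/
abbrev F : Type := ZMod 2

/-- A coordinate of a product-like type. -/
structure Lens (β α : Type) where
  get : β → α
  set : β → α → β
  get_set : ∀ μ a, get (set μ a) = a
  set_set : ∀ μ a b, set (set μ a) b = set μ b
  set_get : ∀ μ, set μ (get μ) = μ

section Loc

variable {β α α' : Type} [Fintype α] [Fintype α']

/-- A matrix acting in one coordinate. -/
def loc (l : Lens β α) (M : Matrix α α F) : Module.End F (β → F) where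
  toFun f μ := ∑ j, M (l.get μ) j * f (l.set μ j)
  map_add' f g := by
    funext μ
    simp [mul_add, Finset.sum_add_distrib]
  map_smul' c f := by
    funext μ
    simp [Finset.mul_sum, mul_left_comm]

theorem loc_apply (l : Lens β α) (M : Matrix α α F) (f : β → F) (μ : β) :
    loc l M f μ = ∑ j, M (l.get μ) j * f (l.set μ j) := rfl

theorem loc_mul (l : Lens β α) (M M' : Matrix α α F) :
    loc l M * loc l M' = loc l (M * M') := by
  refine LinearMap.ext fun f => funext fun μ => ?_
  simp only [Module.End.mul_apply, loc_apply, l.get_set, l.set_set, Matrix.mul_apply,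
    Finset.mul_sum, Finset.sum_mul, mul_assoc]
  exact Finset.sum_comm

theorem loc_diag [DecidableEq α] (l : Lens β α) (d : α → F) (f : β → F) (μ : β) :
    loc l (Matrix.diagonal d) f μ = d (l.get μ) * f μ := by
  rw [loc_apply, Finset.sum_eq_single (l.get μ)]
  · simp [l.set_get]
  · intro b _ hb
    simp [Matrix.diagonal_apply_ne _ hb.symm]
  · simp

theorem loc_zero (l : Lens β α) : loc l 0 = 0 := by
  refine LinearMap.ext fun f => funext fun μ => ?_
  simp [loc_apply]

theorem loc_comm (l : Lens β α) (l' : Lens β α') (h1 : ∀ μ a, l'.get (l.set μ a) = l'.get μ)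
    (h2 : ∀ μ a, l.get (l'.set μ a) = l.get μ)
    (h3 : ∀ μ a b, l'.set (l.set μ a) b = l.set (l'.set μ b) a)
    (M : Matrix α α F) (M' : Matrix α' α' F) : Commute (loc l M) (loc l' M') := by
  refine LinearMap.ext fun f => funext fun μ => ?_
  simp only [Module.End.mul_apply, loc_apply, h1, h2, h3, Finset.mul_sum]
  rw [Finset.sum_comm]
  refine Finset.sum_congr rfl fun a _ => Finset.sum_congr rfl fun b _ => ?_
  ring

end Loc

/-- Raising matrix. -/
def U (m : ℕ) : Matrix (Fin m) (Fin m) F := fun a j => if a.val = j.val + 1 then 1 else 0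

/-- Lowering matrix. -/
def Dn (m : ℕ) : Matrix (Fin m) (Fin m) F := fun a j => if j.val = a.val + 1 then 1 else 0

theorem U_Dn (m : ℕ) : U m * Dn m = Matrix.diagonal fun a => if 0 < a.val then 1 else 0 := by
  ext a b
  rw [Matrix.mul_apply]
  by_cases ha : 0 < a.val
  · rw [Finset.sum_eq_single ⟨a.val - 1, by omega⟩]
    · by_cases hab : a = b
      · subst hab
        have : a.val = a.val - 1 + 1 := by omega
        simp [U, Dn, ha, ← this]
      · have : ¬ b.val = a.val - 1 + 1 := fun h => hab (Fin.ext (by omega))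
        simp [U, Dn, this, Matrix.diagonal_apply_ne _ hab]
    · intro j _ hj
      have : ¬ a.val = j.val + 1 := fun h => hj (Fin.ext (by simp; omega))
      simp [U, this]
    · simp
  · have : ∀ j : Fin m, ¬ a.val = j.val + 1 := fun j => by omega
    simp [U, this, Matrix.diagonal_apply, ha]

theorem Dn_U (m : ℕ) : Dn m * U m = Matrix.diagonal fun a => if a.val + 1 < m then 1 else 0 := by
  ext a b
  rw [Matrix.mul_apply]
  by_cases ha : a.val + 1 < m
  · rw [Finset.sum_eq_single ⟨a.val + 1, ha⟩]
    · by_cases hab : a = b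
      · subst hab
        simp [U, Dn, ha]
      · have : ¬ a.val = b.val := fun h => hab (Fin.ext h)
        simp [U, Dn, this, Matrix.diagonal_apply_ne _ hab]
    · intro j _ hj
      have : ¬ j.val = a.val + 1 := fun h => hj (Fin.ext h)
      simp [Dn, this]
    · simp
  · have : ∀ j : Fin m, ¬ j.val = a.val + 1 := fun j => by omega
    simp [Dn, this, Matrix.diagonal_apply, ha]

theorem U2_sq : U 2 * U 2 = 0 := by decide

theorem Dn2_sq : Dn 2 * Dn 2 = 0 := by decide

variable (n : ℕ)

/-- The cyclic group of odd order `2 n + 1`. -/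
abbrev Z : Type := ZMod (2 * n + 1)

/-- The vertices of the complete graph. -/
abbrev V : Type := Option (Z n)

/-- The monomial basis. -/
abbrev Bas : Type := (V n → Fin 2) × (Z n → Fin (n + 1))

/-- The underlying vector space. -/
abbrev E : Type := Bas n → F

/-- Operators on it. -/
abbrev En : Type := Module.End F (E n)

variable {n}

/-- The coordinate of an odd variable. -/
def lx (v : V n) : Lens (Bas n) (Fin 2) where
  get μ := μ.1 v
  set μ j := (Function.update μ.1 v j, μ.2)
  get_set μ a := by simp
  set_set μ a b := by simp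
  set_get μ := by simp

/-- The coordinate of an even variable. -/
def lw (c : Z n) : Lens (Bas n) (Fin (n + 1)) where
  get μ := μ.2 c
  set μ j := (μ.1, Function.update μ.2 c j)
  get_set μ a := by simp
  set_set μ a b := by simp
  set_get μ := by simp

theorem xx_comm {u v : V n} (h : u ≠ v) (M M' : Matrix (Fin 2) (Fin 2) F) :
    Commute (loc (lx u) M) (loc (lx v) M') :=
  loc_comm _ _ (fun μ a => by simp [lx, h.symm]) (fun μ a => by simp [lx, h])
    (fun μ a b => by simp [lx, Function.update_comm h]) _ _

theorem ww_comm {c c' : Z n} (h : c ≠ c') (M M' : Matrix (Fin (n + 1)) (Fin (n + 1)) F) :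
    Commute (loc (lw c) M) (loc (lw c') M') :=
  loc_comm _ _ (fun μ a => by simp [lw, h.symm]) (fun μ a => by simp [lw, h])
    (fun μ a b => by simp [lw, Function.update_comm h]) _ _

theorem xw_comm (u : V n) (c : Z n) (M : Matrix (Fin 2) (Fin 2) F)
    (M' : Matrix (Fin (n + 1)) (Fin (n + 1)) F) : Commute (loc (lx u) M) (loc (lw c) M') :=
  loc_comm _ _ (fun _ _ => rfl) (fun _ _ => rfl) (fun _ _ _ => rfl) _ _

/-- Multiplication by an odd variable. -/
def xi (v : V n) : En n := loc (lx v) (U 2)

/-- Derivative in an odd variable. -/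
def pd (v : V n) : En n := loc (lx v) (Dn 2)

/-- Multiplication by an even variable. -/
def W (c : Z n) : En n := loc (lw c) (U (n + 1))

/-- Division by an even variable. -/
def wd (c : Z n) : En n := loc (lw c) (Dn (n + 1))

theorem twoE (f : E n) : f + f = 0 := by
  funext μ
  exact CharTwo.add_self_eq_zero _

theorem two (T : En n) : T + T = 0 := LinearMap.ext fun _ => twoE _

theorem Commute.anti {S T : En n} (h : Commute S T) : S * T + T * S = 0 := by
  rw [h.eq, two]

theorem comm_of_anti {S T : En n} (h : S * T + T * S = 0) : Commute S T := by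
  have := congrArg (· + T * S) h
  change S * T = T * S
  simpa [add_assoc, two] using this

theorem xi_xi (u v : V n) : Commute (xi u) (xi v) := by
  by_cases h : u = v
  · subst h; exact Commute.refl _
  · exact xx_comm h _ _

theorem pd_pd (u v : V n) : Commute (pd u) (pd v) := by
  by_cases h : u = v
  · subst h; exact Commute.refl _
  · exact xx_comm h _ _

theorem W_W (c c' : Z n) : Commute (W c) (W c') := by
  by_cases h : c = c'
  · subst h; exact Commute.refl _
  · exact ww_comm h _ _

theorem xi_W (u : V n) (c : Z n) : Commute (xi u) (W c) := xw_comm _ _ _ _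
theorem pd_W (u : V n) (c : Z n) : Commute (pd u) (W c) := xw_comm _ _ _ _
theorem xi_wd (u : V n) (c : Z n) : Commute (xi u) (wd c) := xw_comm _ _ _ _
theorem pd_wd (u : V n) (c : Z n) : Commute (pd u) (wd c) := xw_comm _ _ _ _

theorem xi_sq (v : V n) : xi v * xi v = 0 := by rw [xi, loc_mul, U2_sq, loc_zero]
theorem pd_sq (v : V n) : pd v * pd v = 0 := by rw [pd, loc_mul, Dn2_sq, loc_zero]

theorem xi_pd_apply (v : V n) (f : E n) (μ : Bas n) :
    xi v (pd v f) μ = if 0 < (μ.1 v).val then f μ else 0 := by
  rw [← Module.End.mul_apply, xi, pd, loc_mul, U_Dn, loc_diag]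
  simp [lx]

theorem pd_xi_apply (v : V n) (f : E n) (μ : Bas n) :
    pd v (xi v f) μ = if (μ.1 v).val + 1 < 2 then f μ else 0 := by
  rw [← Module.End.mul_apply, xi, pd, loc_mul, Dn_U, loc_diag]
  simp [lx]

theorem W_wd_apply (c : Z n) (f : E n) (μ : Bas n) :
    W c (wd c f) μ = if 0 < (μ.2 c).val then f μ else 0 := by
  rw [← Module.End.mul_apply, W, wd, loc_mul, U_Dn, loc_diag]
  simp [lw]

theorem wd_W_apply (c : Z n) (f : E n) (μ : Bas n) :
    wd c (W c f) μ = if (μ.2 c).val + 1 < n + 1 then f μ else 0 := by
  rw [← Module.End.mul_apply, W, wd, loc_mul, Dn_U, loc_diag]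
  simp [lw]

theorem pd_xi (u v : V n) : pd u * xi v + xi v * pd u = if u = v then 1 else 0 := by
  split_ifs with h
  · subst h
    refine LinearMap.ext fun f => funext fun μ => ?_
    simp only [LinearMap.add_apply, Module.End.mul_apply, Pi.add_apply, xi_pd_apply, pd_xi_apply,
      Module.End.one_apply]
    have := (μ.1 u).isLt
    split_ifs <;> first | omega | simp
  · exact Commute.anti (xx_comm h _ _)

/-- The colour of an edge in the one-factorisation. -/
def col : V n → V n → Z n
  | some a, some b => a + b
  | some a, none => a + a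
  | none, some b => b + b
  | none, none => 0

theorem col_symm (u v : V n) : col u v = col v u := by
  cases u <;> cases v <;> simp [col, add_comm]

/-- The contraction part of a Clifford generator. -/
def S (γ : V n → V n → F) (v : V n) : En n := ∑ u, γ v u • (W (col v u) * pd u)

/-- A Clifford generator acting on the exterior algebra. -/
def T (γ : V n → V n → F) (v : V n) : En n := xi v + S γ v

theorem S_xi (γ : V n → V n → F) (v u : V n) :
    S γ v * xi u + xi u * S γ v = γ v u • W (col v u) := by
  rw [S, Finset.sum_mul, Finset.mul_sum, ← Finset.sum_add_distrib, Finset.sum_eq_single u]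
  · rw [smul_mul_assoc, mul_smul_comm, ← smul_add, ← mul_assoc, (xi_W _ _).eq, mul_assoc,
      mul_assoc, ← mul_add, pd_xi, if_pos rfl, mul_one]
  · intro z _ hz
    rw [smul_mul_assoc, mul_smul_comm, ← smul_add, ← mul_assoc, (xi_W _ _).eq, mul_assoc,
      mul_assoc, ← mul_add, pd_xi, if_neg hz, mul_zero, smul_zero]
  · simp

theorem Wpd_comm (c c' : Z n) (u u' : V n) : Commute (W c * pd u) (W c' * pd u') :=
  ((W_W c c').mul_right (pd_W u' c).symm).mul_left ((pd_W u c').mul_right (pd_pd u u'))

theorem S_S (γ γ' : V n → V n → F) (v u : V n) : Commute (S γ v) (S γ' u) :=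
  Commute.sum_left _ _ _ fun _ _ => Commute.sum_right _ _ _ fun _ _ =>
    ((Wpd_comm _ _ _ _).smul_left _).smul_right _

theorem pd_S (γ : V n → V n → F) (u v : V n) : Commute (pd u) (S γ v) :=
  Commute.sum_right _ _ _ fun _ _ => ((pd_W _ _).mul_right (pd_pd _ _)).smul_right _

theorem W_S (γ : V n → V n → F) (c : Z n) (v : V n) : Commute (W c) (S γ v) :=
  Commute.sum_right _ _ _ fun _ _ => ((W_W _ _).mul_right (pd_W _ _).symm).smul_right _

theorem S_sq (γ : V n → V n → F) (v : V n) : S γ v * S γ v = 0 := by
  have key : ∀ s : Finset (V n), (∑ u ∈ s, γ v u • (W (col v u) * pd u)) *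
      (∑ u ∈ s, γ v u • (W (col v u) * pd u)) = 0 := by
    intro s
    induction s using Finset.induction_on with
    | empty => simp
    | insert a s ha ih =>
      rw [Finset.sum_insert ha]
      have h1 : (γ v a • (W (col v a) * pd a)) * (γ v a • (W (col v a) * pd a)) = 0 := by
        rw [smul_mul_assoc, mul_smul_comm, mul_assoc, ← mul_assoc (pd a), (pd_W _ _).eq,
          mul_assoc, pd_sq]
        simp
      have h2 : Commute (γ v a • (W (col v a) * pd a))
          (∑ u ∈ s, γ v u • (W (col v u) * pd u)) :=
        Commute.sum_right _ _ _ fun _ _ => ((Wpd_comm _ _ _ _).smul_left _).smul_right _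
      rw [add_mul, mul_add, mul_add, h1, ih, zero_add, add_zero]
      exact Commute.anti h2
  exact key _

theorem T_anti (γ γ' : V n → V n → F) (v u : V n) :
    T γ v * T γ' u + T γ' u * T γ v = (γ v u + γ' u v) • W (col v u) := by
  have h1 := Commute.anti (xi_xi v u)
  have h2 := Commute.anti (S_S γ γ' v u)
  have h3 := S_xi γ v u
  have h4 := S_xi γ' u v
  rw [col_symm u v] at h4
  rw [add_smul, ← h3, ← h4]
  have : T γ v * T γ' u + T γ' u * T γ v = (xi v * xi u + xi u * xi v) +
      (S γ v * S γ' u + S γ' u * S γ v) + (S γ v * xi u + xi u * S γ v +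
      (S γ' u * xi v + xi v * S γ' u)) := by
    simp only [T, mul_add, add_mul]
    abel
  rw [this, h1, h2, zero_add, zero_add]

theorem T_sq (γ : V n → V n → F) (v : V n) (h : γ v v = 0) : T γ v * T γ v = 0 := by
  have h3 := S_xi γ v v
  rw [h, zero_smul] at h3
  have : T γ v * T γ v = xi v * xi v + S γ v * S γ v + (S γ v * xi v + xi v * S γ v) := by
    simp only [T, mul_add, add_mul]
    abel
  rw [this, h3, xi_sq, S_sq]
  simp

theorem pd_T (γ : V n → V n → F) (u v : V n) :
    pd u * T γ v + T γ v * pd u = if u = v then 1 else 0 := by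
  have : pd u * T γ v + T γ v * pd u = (pd u * xi v + xi v * pd u) +
      (pd u * S γ v + S γ v * pd u) := by
    simp only [T, mul_add, add_mul]
    abel
  rw [this, pd_xi, Commute.anti (pd_S γ u v), add_zero]

end Pool.Agent.Lib.MP_1ef125_al
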