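import Mathlib
import Pool.Agent.Lib.MP_1ef125_al.Ops

set_option autoImplicit false

namespace Pool.Agent.Lib.MP_1ef125_al

variable {n : ℕ}

/-- Total degree of a monomial. -/
def deg (μ : Bas n) : ℤ := ∑ v, ((μ.1 v).val : ℤ) + 2 * ∑ c, ((μ.2 c).val : ℤ)

theorem deg_nonneg (μ : Bas n) : 0 ≤ deg μ := by
  unfold deg
  positivity

theorem sum_update {ι : Type} [Fintype ι] [DecidableEq ι] {m : ℕ} (f : ι → Fin m) (i : ι)
    (a : Fin m) : ∑ j, ((Function.update f i a j).val : ℤ) + (f i).val =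
      ∑ j, ((f j).val : ℤ) + a.val := by
  rw [← Finset.add_sum_erase _ _ (Finset.mem_univ i),
    ← Finset.add_sum_erase _ (fun j => ((f j).val : ℤ)) (Finset.mem_univ i)]
  rw [Finset.sum_congr rfl (g := fun j => ((f j).val : ℤ))
    (fun j hj => by rw [Function.update_of_ne (Finset.ne_of_mem_erase hj)])]
  simp only [Function.update_self]
  ring

theorem deg_lx (v : V n) (μ : Bas n) (a : Fin 2) :
    deg ((lx v).set μ a) + 1 * (((lx v).get μ).val : ℤ) = deg μ + 1 * (a.val : ℤ) := by
  have := sum_update μ.1 v a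
  simp only [deg, lx]
  linarith

theorem deg_lw (c : Z n) (μ : Bas n) (a : Fin (n + 1)) :
    deg ((lw c).set μ a) + 2 * (((lw c).get μ).val : ℤ) = deg μ + 2 * (a.val : ℤ) := by
  have := sum_update μ.2 c a
  simp only [deg, lw]
  linarith

/-- Homogeneous elements of degree `s`. -/
def Es (s : ℤ) : Submodule F (E n) where
  carrier := {f | ∀ μ, deg μ ≠ s → f μ = 0}
  add_mem' ha hb μ h := by simp [ha μ h, hb μ h]
  zero_mem' _ _ := rfl
  smul_mem' c f hf μ h := by simp [hf μ h]

/-- Elements all of whose monomials have degree at least `t`. -/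
def Fs (t : ℤ) : Submodule F (E n) where
  carrier := {f | ∀ μ, deg μ < t → f μ = 0}
  add_mem' ha hb μ h := by simp [ha μ h, hb μ h]
  zero_mem' _ _ := rfl
  smul_mem' c f hf μ h := by simp [hf μ h]

theorem Es_le_Fs {s t : ℤ} (h : t ≤ s) : (Es s : Submodule F (E n)) ≤ Fs t :=
  fun _ hf μ hμ => hf μ (by omega)

theorem Fs_mono {s t : ℤ} (h : t ≤ s) : (Fs s : Submodule F (E n)) ≤ Fs t :=
  fun _ hf μ hμ => hf μ (by omega)

/-- Homogeneous component. -/
def proj (s : ℤ) : En n where
  toFun f μ := if deg μ = s then f μ else 0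
  map_add' f g := by
    funext μ
    simp only [Pi.add_apply]
    split_ifs <;> simp
  map_smul' c f := by
    funext μ
    simp

theorem proj_apply (s : ℤ) (f : E n) (μ : Bas n) :
    proj s f μ = if deg μ = s then f μ else 0 := rfl

theorem proj_mem (s : ℤ) (f : E n) : proj s f ∈ Es s := fun μ h => by
  rw [proj_apply, if_neg h]

theorem proj_self {s : ℤ} {f : E n} (h : f ∈ Es s) : proj s f = f := by
  funext μ
  rw [proj_apply]
  split_ifs with h'
  · rfl
  · exact (h μ h').symm

theorem proj_ne {s s' : ℤ} {f : E n} (h : f ∈ Es s') (hs : s' ≠ s) : proj s f = 0 := by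
  funext μ
  rw [proj_apply]
  split_ifs with h'
  · exact h μ (by omega)
  · rfl

theorem mem_of_proj (Y : Submodule F (E n)) (f : E n) (h : ∀ s, proj s f ∈ Y) : f ∈ Y := by
  have : f = ∑ s ∈ Finset.univ.image (deg (n := n)), proj s f := by
    funext μ
    rw [Finset.sum_apply, Finset.sum_eq_single (deg μ)]
    · simp [proj_apply]
    · intro b _ hb
      rw [proj_apply, if_neg hb.symm]
    · simp
  rw [this]
  exact Y.sum_mem fun s _ => h s

theorem Fs_le (t : ℤ) (Y : Submodule F (E n)) (h : ∀ s, t ≤ s → Es s ≤ Y) : Fs t ≤ Y := by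
  intro f hf
  refine mem_of_proj Y f fun s => ?_
  by_cases hs : t ≤ s
  · exact h s hs (proj_mem s f)
  · have : proj s f = 0 := by
      funext μ
      rw [proj_apply]
      split_ifs with h'
      · exact hf μ (by omega)
      · rfl
    rw [this]
    exact Y.zero_mem

theorem mem_Fs_zero (f : E n) : f ∈ Fs 0 := fun μ h => absurd (deg_nonneg μ) (by omega)

theorem ext_hom {T T' : En n} (h : ∀ s, ∀ f ∈ Es s, T f = T' f) : T = T' := by
  refine LinearMap.ext fun f => ?_
  exact mem_of_proj (LinearMap.eqLocus T T') f fun s => h s _ (proj_mem s f)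

/-- Homogeneous operators of degree `j`. -/
def Hom (j : ℤ) (T : En n) : Prop := ∀ s, ∀ f ∈ Es s, T f ∈ Es (s + j)

theorem Hom.mul {j j' : ℤ} {T T' : En n} (h : Hom j T) (h' : Hom j' T') :
    Hom (j' + j) (T * T') := fun s f hf => by
  rw [← add_assoc]
  exact h _ _ (h' s f hf)

theorem Hom.proj {j : ℤ} {T : En n} (h : Hom j T) (s : ℤ) (f : E n) :
    proj (s + j) (T f) = T (proj s f) := by
  have : (Pool.Agent.Lib.MP_1ef125_al.proj (s + j) : En n) * T =
      T * Pool.Agent.Lib.MP_1ef125_al.proj s := by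
    refine ext_hom fun s' f hf => ?_
    simp only [Module.End.mul_apply]
    by_cases hs : s' = s
    · subst hs
      rw [proj_self hf, proj_self (h _ _ hf)]
    · rw [proj_ne hf hs, proj_ne (h _ _ hf) (by omega), map_zero]
  exact LinearMap.congr_fun this f

theorem Hom.Fs {j : ℤ} {T : En n} (h : Hom j T) (t : ℤ) (f : E n) (hf : f ∈ Fs t) :
    T f ∈ Fs (t + j) :=
  Fs_le t ((Pool.Agent.Lib.MP_1ef125_al.Fs (t + j)).comap T)
    (fun s hs g hg => Es_le_Fs (by omega) (h s g hg)) hf

theorem hom_U {m : ℕ} (l : Lens (Bas n) (Fin m)) (w : ℤ)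
    (hl : ∀ μ a, deg (l.set μ a) + w * ((l.get μ).val : ℤ) = deg μ + w * (a.val : ℤ)) :
    Hom w (loc l (U m)) := by
  intro s f hf μ hμ
  rw [loc_apply]
  refine Finset.sum_eq_zero fun j _ => ?_
  unfold U
  split_ifs with h
  · rw [hf, mul_zero]
    have := hl μ j
    rw [h] at this
    push_cast at this
    intro h'
    apply hμ
    linarith
  · rw [zero_mul]

theorem hom_Dn {m : ℕ} (l : Lens (Bas n) (Fin m)) (w : ℤ)
    (hl : ∀ μ a, deg (l.set μ a) + w * ((l.get μ).val : ℤ) = deg μ + w * (a.val : ℤ)) :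
    Hom (-w) (loc l (Dn m)) := by
  intro s f hf μ hμ
  rw [loc_apply]
  refine Finset.sum_eq_zero fun j _ => ?_
  unfold Dn
  split_ifs with h
  · rw [hf, mul_zero]
    have := hl μ j
    rw [h] at this
    push_cast at this
    intro h'
    apply hμ
    linarith
  · rw [zero_mul]

theorem hom_xi (v : V n) : Hom 1 (xi v) := hom_U _ _ (deg_lx v)
theorem hom_pd (v : V n) : Hom (-1) (pd v) := hom_Dn _ _ (deg_lx v)
theorem hom_W (c : Z n) : Hom 2 (W c) := hom_U _ _ (deg_lw c)
theorem hom_wd (c : Z n) : Hom (-2) (wd c) := hom_Dn _ _ (deg_lw c)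

theorem T_apply (γ : V n → V n → F) (v : V n) (f : E n) :
    T γ v f = xi v f + ∑ u, γ v u • W (col v u) (pd u f) := by
  simp [T, S, LinearMap.sum_apply]

theorem hom_T (γ : V n → V n → F) (v : V n) : Hom 1 (T γ v) := by
  intro s f hf
  rw [T_apply]
  refine add_mem (hom_xi v s f hf) (Submodule.sum_mem _ fun u _ => Submodule.smul_mem _ _ ?_)
  have := hom_W (col v u) _ _ (hom_pd u s f hf)
  rwa [show s + -1 + 2 = s + 1 by ring] at this

/-- The partner of the vertex `0` along the edge of colour `c`. -/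
def pt (c : Z n) : V n := if c = 0 then none else some c

theorem pt_ne (c : Z n) : some 0 ≠ pt c := by
  unfold pt
  split_ifs with h
  · simp
  · simpa using Ne.symm h

theorem col_pt (c : Z n) : col (some 0) (pt c) = c := by
  unfold pt
  split_ifs with h
  · simp [col, h]
  · simp [col]

theorem W_eq (γ : V n → V n → F) (hγ : ∀ u v, u ≠ v → γ u v + γ v u = 1) (c : Z n) :
    W c = T γ (some 0) * T γ (pt c) + T γ (pt c) * T γ (some 0) := by
  rw [T_anti, hγ _ _ (pt_ne c), col_pt, one_smul]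

/-- The constant monomial. -/
def μ0 : Bas n := (fun _ => 0, fun _ => 0)

/-- The top monomial. -/
def μ1 : Bas n := (fun _ => 1, fun _ => Fin.last n)

/-- The unit element. -/
def one : E n := Pi.single μ0 1

theorem deg_μ0 : deg (μ0 : Bas n) = 0 := by simp [deg, μ0]

theorem single_mem (μ : Bas n) (c : F) : (Pi.single μ c : E n) ∈ Es (deg μ) := by
  intro ν hν
  exact Pi.single_eq_of_ne (fun h => hν (by rw [h])) _

theorem one_mem : (one : E n) ∈ Es 0 := by
  have := single_mem (μ0 : Bas n) 1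
  rwa [deg_μ0] at this

theorem cases_μ0 (μ : Bas n) :
    μ = μ0 ∨ (∃ v, 0 < (μ.1 v).val) ∨ ∃ c, 0 < (μ.2 c).val := by
  by_contra h
  push Not at h
  apply h.1
  refine Prod.ext (funext fun v => Fin.ext ?_) (funext fun c => Fin.ext ?_)
  · have := h.2.1 v
    simp only [μ0, Fin.val_zero]
    omega
  · have := h.2.2 c
    simp only [μ0, Fin.val_zero]
    omega

theorem deg_pos (μ : Bas n) (h : μ ≠ μ0) : 0 < deg μ := by
  rcases cases_μ0 μ with h' | ⟨v, hv⟩ | ⟨c, hc⟩
  · exact absurd h' h
  · have := deg_lx v μ 0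
    have h2 := deg_nonneg ((lx v).set μ 0)
    simp only [lx, Fin.val_zero] at this h2
    omega
  · have := deg_lw c μ 0
    have h2 := deg_nonneg ((lw c).set μ 0)
    simp only [lw, Fin.val_zero] at this h2
    omega

theorem Es_zero {f : E n} (hf : f ∈ Es 0) : f = f μ0 • one := by
  funext μ
  by_cases h : μ = μ0
  · subst h
    simp [one]
  · rw [hf μ (deg_pos μ h).ne']
    simp [one, h]

theorem mem_Fs_one {f : E n} (hf : f μ0 = 0) : f ∈ Fs 1 := by
  intro μ hμ
  by_cases h : μ = μ0
  · rw [h, hf]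
  · have := deg_pos μ h
    omega

theorem gen (γ : V n → V n → F) (hγ : ∀ u v, u ≠ v → γ u v + γ v u = 1) (s : ℤ)
    (hs : s + 1 ≠ 0) (Y : Submodule F (E n)) (hY : ∀ v, ∀ q ∈ Es s, T γ v q ∈ Y) :
    Es (s + 1) ≤ Y := by
  have hW : ∀ c, ∀ q ∈ Es (s + -1), W c q ∈ Y := by
    intro c q hq
    have h1 : ∀ v, T γ v q ∈ Es s := fun v => by
      have := hom_T γ v _ q hq
      rwa [show s + -1 + 1 = s by ring] at this
    rw [W_eq γ hγ, LinearMap.add_apply, Module.End.mul_apply, Module.End.mul_apply]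
    exact add_mem (hY _ _ (h1 _)) (hY _ _ (h1 _))
  have hx : ∀ v, ∀ q ∈ Es s, xi v q ∈ Y := by
    intro v q hq
    have h1 := hY v q hq
    rw [T_apply] at h1
    have h2 : ∑ u, γ v u • W (col v u) (pd u q) ∈ Y :=
      Submodule.sum_mem _ fun u _ => Submodule.smul_mem _ _ (hW _ _ (hom_pd u s q hq))
    simpa using sub_mem h1 h2
  intro z hz
  rw [← Finset.univ_sum_single z]
  refine Submodule.sum_mem _ fun μ _ => ?_
  by_cases hμ : deg μ = s + 1
  · have hm := single_mem μ (z μ)
    rw [hμ] at hm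
    rcases cases_μ0 μ with h' | ⟨v, hv⟩ | ⟨c, hc⟩
    · rw [h', deg_μ0] at hμ
      exact absurd hμ.symm hs
    · have : (Pi.single μ (z μ) : E n) = xi v (pd v (Pi.single μ (z μ))) := by
        funext ν
        rw [xi_pd_apply]
        split_ifs with h
        · rfl
        · exact Pi.single_eq_of_ne (fun h' => h (by rw [h']; exact hv)) _
      rw [this]
      refine hx v _ ?_
      have := hom_pd v _ _ hm
      rwa [show s + 1 + -1 = s by ring] at this
    · have : (Pi.single μ (z μ) : E n) = W c (wd c (Pi.single μ (z μ))) := by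
        funext ν
        rw [W_wd_apply]
        split_ifs with h
        · rfl
        · exact Pi.single_eq_of_ne (fun h' => h (by rw [h']; exact hc)) _
      rw [this]
      refine hW c _ ?_
      have := hom_wd c _ _ hm
      rwa [show s + 1 + -2 = s + -1 by ring] at this
  · rw [hz μ hμ, Pi.single_zero]
    exact Y.zero_mem

theorem gen_ind (γ : V n → V n → F) (hγ : ∀ u v, u ≠ v → γ u v + γ v u = 1)
    (P : ℤ → Submodule F (E n)) (h0 : one ∈ P 0)
    (hstep : ∀ s, Es s ≤ P s → ∀ v, ∀ q ∈ Es s, T γ v q ∈ P (s + 1)) (s : ℤ) (hs : 0 ≤ s) :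
    Es s ≤ P s := by
  induction s, hs using Int.leInduction with
  | base =>
    intro f hf
    rw [Es_zero hf]
    exact Submodule.smul_mem _ _ h0
  | succ s hs ih => exact gen γ hγ s (by omega) _ (hstep s ih)

theorem socle (γ : V n → V n → F) (hγ : ∀ u v, u ≠ v → γ u v + γ v u = 1) (z : E n)
    (hz : ∀ v, T γ v z = 0) (μ : Bas n) (hμ : μ ≠ μ1) : z μ = 0 := by
  have hW : ∀ c, W c z = 0 := fun c => by
    rw [W_eq γ hγ, LinearMap.add_apply, Module.End.mul_apply, Module.End.mul_apply, hz, hz]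
    simp
  have hx : ∀ v, xi v z = 0 := fun v => by
    have h1 := hz v
    rw [T_apply, Finset.sum_eq_zero, add_zero] at h1
    · exact h1
    · intro u _
      rw [← Module.End.mul_apply, ← (pd_W _ _).eq, Module.End.mul_apply, hW]
      simp
  by_contra h
  apply hμ
  refine Prod.ext (funext fun v => Fin.ext ?_) (funext fun c => Fin.ext ?_)
  · have h1 := pd_xi_apply v z μ
    rw [hx, map_zero] at h1
    have h2 := (μ.1 v).isLt
    by_contra h3
    rw [if_pos (by simp only [μ1, Fin.val_one] at h3; omega)] at h1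
    exact h h1.symm
  · have h1 := wd_W_apply c z μ
    rw [hW, map_zero] at h1
    have h2 := (μ.2 c).isLt
    by_contra h3
    rw [if_pos (by simp only [μ1, Fin.val_last] at h3; omega)] at h1
    exact h h1.symm

end Pool.Agent.Lib.MP_1ef125_al
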